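import Pool.Agent.Helper41.Cluster4.Goals
import Pool.Agent.Helper65.Delone.B

/-! Packet N: separation against covering radius in dimension four. -/

namespace Pool.Agent.Helper69.Cl4

open Module Pool.Agent.Helper65.Delone Pool.Agent.Helper41.Cluster4
open scoped RealInnerProductSpace

variable {E : Type*} [NormedAddCommGroup E] [InnerProductSpace ℝ E]

/-- `k` independent differences in a contact set. -/
theorem step [FiniteDimensional ℝ E] (hM : LemM E) {C : Set E} {D t : ℝ} (hD : 0 < D)
    (h : SepDense C D t) {x : E} (hx : x ∈ C) :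
    ∀ k : ℕ, k ≤ finrank ℝ E → ∃ (q : E) (d : Fin k → E), x ∈ Con C q ∧
      (∀ i, x + d i ∈ Con C q) ∧ LinearIndependent ℝ d
  | 0, _ => ⟨x, Fin.elim0, con_self hx, fun i => i.elim0, linearIndependent_empty_type⟩
  | k + 1, hk => by
    obtain ⟨q, d, hxq, hd, hli⟩ := step hM hD h hx k (by omega)
    set V := Submodule.span ℝ (Set.range d) with hV
    obtain ⟨v, hv, hvV⟩ : ∃ v : E, v ≠ 0 ∧ ∀ w ∈ V, ⟪w, v⟫ = 0 := by
      have h1 := Submodule.finrank_add_finrank_orthogonal V
      have h2 : finrank ℝ V = k := by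
        rw [hV, finrank_span_eq_card hli, Fintype.card_fin]
      have h3 : 0 < finrank ℝ Vᗮ := by omega
      haveI : Nontrivial Vᗮ := Module.nontrivial_of_finrank_pos (R := ℝ) h3
      obtain ⟨w, hw⟩ := exists_ne (0 : Vᗮ)
      refine ⟨w, fun h0 => hw (Subtype.ext h0), fun u hu => ?_⟩
      exact (Submodule.mem_orthogonal V w.1).1 w.2 u hu
    obtain ⟨s, _, hxq', ⟨z, hz, hzp⟩, hy⟩ := hM C D t hD h q x hxq v hv
    refine ⟨q + s • v, Fin.cons (z - x) d, hxq', fun i => ?_, ?_⟩
    · refine Fin.cases ?_ (fun i => ?_) i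
      · rw [Fin.cons_zero, add_sub_cancel]
        exact hz
      · rw [Fin.cons_succ]
        refine hy _ (hd i) ?_
        rw [add_sub_cancel_left]
        exact hvV _ (Submodule.subset_span ⟨i, rfl⟩)
    · rw [linearIndependent_finCons]
      refine ⟨hli, fun hz' => ?_⟩
      rw [hvV _ hz'] at hzp
      exact lt_irrefl _ hzp

theorem lemN5 [FiniteDimensional ℝ E] (hM : LemM E) : LemN5 E := by
  intro hdim C D t hD h
  obtain ⟨x, hx, -⟩ := h.dens 0
  obtain ⟨q, d, hxq, hd, hli⟩ := step hM hD h hx 4 hdim.ge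
  by_contra hcon
  push Not at hcon
  -- the five points
  let p : Fin 5 → E := Fin.cons x (fun i => x + d i)
  have hp : ∀ i, p i ∈ Con C q := by
    intro i
    refine Fin.cases ?_ (fun i => ?_) i
    · exact hxq
    · exact hd i
  have hinj : Function.Injective p := by
    intro i j
    refine Fin.cases ?_ (fun i => ?_) i
    · refine Fin.cases ?_ (fun j => ?_) j
      · intro _; rfl
      · intro hij
        exfalso
        have h1 : x = x + d j := hij
        exact hli.ne_zero j (left_eq_add.1 h1)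
    · refine Fin.cases ?_ (fun j => ?_) j
      · intro hij
        exfalso
        have h1 : x + d i = x := hij
        exact hli.ne_zero i (add_eq_left.1 h1)
      · intro hij
        have h1 : x + d i = x + d j := hij
        rw [hli.injective (add_left_cancel h1)]
  let a : Fin 5 → E := fun i => q - p i
  have ha : ∀ i, ‖a i‖ = ‖a 0‖ := fun i => con_norm_eq (hp i) (hp 0)
  have hat : ‖a 0‖ ≤ t := con_norm_le h (hp 0)
  have hsq : ‖a 0‖ ^ 2 ≤ t ^ 2 := by
    have := norm_nonneg (a 0)
    nlinarith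
  have h1 : ∀ i j, ‖p i - p j‖ ^ 2 = 2 * ‖a 0‖ ^ 2 - 2 * ⟪a i, a j⟫ := by
    intro i j
    have e : p i - p j = a j - a i := by
      show p i - p j = (q - p j) - (q - p i)
      abel
    rw [e, norm_sub_sq_real, ha i, ha j, real_inner_comm]
    ring
  have h2 : ∑ i, ∑ j, ‖p i - p j‖ ^ 2 = 50 * ‖a 0‖ ^ 2 - 2 * ‖∑ i, a i‖ ^ 2 := by
    simp only [h1, Finset.sum_sub_distrib, ← Finset.mul_sum]
    rw [← real_inner_self_eq_norm_sq (∑ i, a i), sum_inner]
    simp only [inner_sum, Finset.sum_const, Finset.card_univ, Fintype.card_fin, nsmul_eq_mul]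
    push_cast
    ring
  have h3 : ∑ i : Fin 5, ∑ j : Fin 5, (if i = j then (0 : ℝ) else 5 / 2 * t ^ 2) <
      ∑ i, ∑ j, ‖p i - p j‖ ^ 2 := by
    refine Finset.sum_lt_sum (fun i _ => Finset.sum_le_sum fun j _ => ?_) ⟨0, Finset.mem_univ _,
      Finset.sum_lt_sum (fun j _ => ?_) ⟨1, Finset.mem_univ _, ?_⟩⟩
    · split_ifs with hij
      · positivity
      · exact (hcon _ (hp i).1 _ (hp j).1 (fun h' => hij (hinj h'))).le
    · split_ifs with hij
      · positivity
      · exact (hcon _ (hp 0).1 _ (hp j).1 (fun h' => hij (hinj h'))).le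
    · rw [if_neg (by decide)]
      exact hcon _ (hp 0).1 _ (hp 1).1 (fun h' => absurd (hinj h') (by decide))
  have h4 : ∑ i : Fin 5, ∑ j : Fin 5, (if i = j then (0 : ℝ) else 5 / 2 * t ^ 2) =
      50 * t ^ 2 := by
    have h5 : ∀ i : Fin 5, ∑ j : Fin 5, (if i = j then (0 : ℝ) else 5 / 2 * t ^ 2) =
        10 * t ^ 2 := by
      intro i
      have h6 : ∀ j : Fin 5, (if i = j then (0 : ℝ) else 5 / 2 * t ^ 2) =
          5 / 2 * t ^ 2 - (if i = j then 5 / 2 * t ^ 2 else 0) := by
        intro j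
        split_ifs <;> ring
      simp only [h6, Finset.sum_sub_distrib, Finset.sum_ite_eq, Finset.mem_univ, if_true,
        Finset.sum_const, Finset.card_univ, Fintype.card_fin, nsmul_eq_mul]
      push_cast
      ring
    simp only [h5, Finset.sum_const, Finset.card_univ, Fintype.card_fin, nsmul_eq_mul]
    push_cast
    ring
  have h7 : 0 ≤ ‖∑ i, a i‖ ^ 2 := sq_nonneg _
  rw [h4, h2] at h3
  linarith

end Pool.Agent.Helper69.Cl4
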